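import Pool.Agent.Helper13.PLF.Defs
import Pool.Agent.Helper45.PD.Kum2
import Pool.Agent.Helper45.PD.Coord2
import Pool.Agent.Helper45.PD.YLa
import Pool.Agent.Helper45.PD.OneA

/-!
# Project PL, block RCH, first part: there are at least four automorphisms of `YL` over `M`
-/

set_option autoImplicit false

namespace Pool.Agent.PRL

open VC IntermediateField NumberField IsDedekindDomain Pool.Agent.SC
open Pool.Agent.L (L0 MM)
open Pool.Agent.LN (Geo Act)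
open Pool.Agent.M (Moves OverPl inL0)
open Pool.Agent.ML (HasMu BPl)
open Pool.Agent.TOW (Au AuE)
open Pool.Agent.PDL

section geo

variable {k K0 E U : Type} [Field k] [NumberField k] [Field K0] [Field E] [Field U]
  [Algebra k K0] [Algebra k E] [Algebra E U] [Algebra K0 U] [Algebra k U] [IsScalarTower k E U]
  [IsScalarTower k K0 U] {ℓ : ℕ} {x : K0} {f : Polynomial k} {r : U}

omit [Algebra k E] [Algebra k U] [IsScalarTower k E U] [IsScalarTower k K0 U] [NumberField k]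
  [Algebra k K0] [Field k] in
theorem Four.mul28 {s : K0} (hs : s ≠ 0) {N : IntermediateField E U}
    (h : Four E K0 (r * algebraMap K0 U s) N) : Four E K0 r N := by
  obtain ⟨A, h1, h2, h3⟩ := h
  refine ⟨A, h1, fun a ha => ⟨(h2 a ha).1, ?_⟩, h3⟩
  have h4 := (h2 a ha).2
  rw [map_mul, (h2 a ha).1.fixK] at h4
  exact mul_right_cancel₀ ((_root_.map_ne_zero _).2 hs) h4

/-- infinity is a branch point -/
theorem four_inf28 (H : HypL E ℓ x f r) (hℓ : ℓ.Prime) (hd : ¬ ℓ ∣ f.natDegree)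
    (hc : 4 * ℓ ≤ ℓ ^ (RB k E ℓ f).card) : Four E K0 r (YL E K0 ℓ (U := U)) := by
  classical
  have hcl : IsAlgClosed E := H.geo.clE
  obtain ⟨ww, hww⟩ := H.exists_ww hℓ hd
  obtain ⟨-, ζ, -, hζ, -⟩ := H.exists_T hℓ
  have hr0 := H.r_ne hℓ
  -- the roots of unity
  obtain ⟨Z, hZ⟩ : ∃ Z : Finset E, Z = (Finset.range ℓ).image fun i => ζ ^ i := ⟨_, rfl⟩
  have hZc : Z.card = ℓ := by
    rw [hZ, Finset.card_image_of_injOn, Finset.card_range]
    intro i hi j hj hij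
    rw [Finset.coe_range, Set.mem_Iio] at hi hj
    exact hζ.pow_inj hi hj hij
  have hZm : ∀ z : E, z ∈ Z ↔ z ^ ℓ = 1 := by
    intro z
    rw [hZ, Finset.mem_image]
    constructor
    · rintro ⟨i, -, rfl⟩
      rw [← pow_mul, mul_comm, pow_mul, hζ.pow_eq_one, one_pow]
    · intro hz
      have : NeZero ℓ := ⟨hℓ.ne_zero⟩
      obtain ⟨i, hi, rfl⟩ := hζ.eq_pow_of_pow_eq_one hz
      exact ⟨i, Finset.mem_range.2 hi, rfl⟩
  -- the characters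
  obtain ⟨Ω, hΩ⟩ : ∃ Ω : Finset ({β // β ∈ RB k E ℓ f} → E), Ω = Fintype.piFinset fun _ => Z :=
    ⟨_, rfl⟩
  have hΩc : Ω.card = ℓ ^ (RB k E ℓ f).card := by
    rw [hΩ, Fintype.card_piFinset, Finset.prod_const, hZc, Finset.card_univ, Fintype.card_coe]
  have hex : ∀ χ : {β // β ∈ RB k E ℓ f} → E, ∃ T : U ≃+* U, χ ∈ Ω → AuE E K0 T ∧
      ∀ β : {β // β ∈ RB k E ℓ f}, T (ww β) = algebraMap E U (χ β) * ww β := by
    intro χ
    by_cases h : χ ∈ Ω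
    · rw [hΩ, Fintype.mem_piFinset] at h
      obtain ⟨T, hT, h1⟩ := H.exists_chi hℓ hww
        (fun β => if hβ : β ∈ RB k E ℓ f then χ ⟨β, hβ⟩ else 1) (fun β hβ => by
          rw [dif_pos hβ]
          exact (hZm _).1 (h _))
      refine ⟨T, fun _ => ⟨hT, fun β => ?_⟩⟩
      rw [h1 β β.2, dif_pos β.2]
    · exact ⟨1, fun h' => absurd h' h⟩
  choose T hT using hex
  -- the eigenvalue of `r`
  have heig : ∀ χ : {β // β ∈ RB k E ℓ f} → E, ∃ z : E, χ ∈ Ω → z ∈ Z ∧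
      T χ r = algebraMap E U z * r := by
    intro χ
    by_cases h : χ ∈ Ω
    · obtain ⟨z, hz, h1⟩ := eig_root (E := E) hℓ.pos hr0 (T := T χ) (by
        rw [H.geo.rpow, (hT χ h).1.fixK])
      exact ⟨z, fun _ => ⟨(hZm z).2 hz, h1⟩⟩
    · exact ⟨1, fun h' => absurd h' h⟩
  choose z hz using heig
  obtain ⟨z₀, hz₀, hfib⟩ := Finset.exists_le_card_fiber_of_mul_le_card_of_maps_to
    (s := Ω) (t := Z) (f := z) (n := 4) (fun χ hχ => (hz χ hχ).1)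
    (by rw [← Finset.card_pos, hZc]; exact hℓ.pos) (by rw [hZc, hΩc, mul_comm]; exact hc)
  obtain ⟨S, hS⟩ : ∃ S : Finset ({β // β ∈ RB k E ℓ f} → E), S = Ω.filter fun χ => z χ = z₀ :=
    ⟨_, rfl⟩
  rw [← hS] at hfib
  have hSm : ∀ χ ∈ S, χ ∈ Ω ∧ z χ = z₀ := fun χ hχ => by
    rw [hS, Finset.mem_filter] at hχ
    exact hχ
  obtain ⟨χ₀, hχ₀⟩ : S.Nonempty := by
    rw [← Finset.card_pos]
    omega
  have hinv : (T χ₀)⁻¹ (algebraMap E U z₀ * r) = r := by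
    have h1 := (hz χ₀ (hSm χ₀ hχ₀).1).2
    rw [(hSm χ₀ hχ₀).2] at h1
    rw [← h1]
    exact (T χ₀).symm_apply_apply r
  have hfix : ∀ χ ∈ S, ((T χ₀)⁻¹ * T χ) r = r := by
    intro χ hχ
    show (T χ₀)⁻¹ (T χ r) = r
    rw [(hz χ (hSm χ hχ).1).2, (hSm χ hχ).2, hinv]
  have hsep : ∀ χ ∈ S, ∀ χ' ∈ S, χ ≠ χ' → ∃ y ∈ YL E K0 ℓ (U := U),
      ((T χ₀)⁻¹ * T χ) y ≠ ((T χ₀)⁻¹ * T χ') y := by
    intro χ hχ χ' hχ' hne
    obtain ⟨β, hβ⟩ := Function.ne_iff.1 hne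
    refine ⟨ww β, H.ww_mem (hww β β.2), fun h => hβ ?_⟩
    have h1 : T χ (ww β) = T χ' (ww β) := (T χ₀)⁻¹.injective h
    rw [(hT χ (hSm χ hχ).1).2, (hT χ' (hSm χ' hχ').1).2] at h1
    exact (algebraMap E U).injective (mul_right_cancel₀ (H.ww_ne hℓ (hww β β.2)) h1)
  have hinj : Set.InjOn (fun χ => (T χ₀)⁻¹ * T χ) S := by
    intro χ hχ χ' hχ' h
    by_contra hne
    obtain ⟨y, -, hy⟩ := hsep χ hχ χ' hχ' hne
    apply hy
    have h' : (T χ₀)⁻¹ * T χ = (T χ₀)⁻¹ * T χ' := h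
    rw [h']
  refine ⟨S.image fun χ => (T χ₀)⁻¹ * T χ, ?_, ?_, ?_⟩
  · rw [Finset.card_image_of_injOn hinj]
    exact hfib
  · intro a ha
    obtain ⟨χ, hχ, rfl⟩ := Finset.mem_image.1 ha
    exact ⟨(hT χ₀ (hSm χ₀ hχ₀).1).1.inv.mul (hT χ (hSm χ hχ).1).1, hfix χ hχ⟩
  · intro a ha b hb hab
    obtain ⟨χ, hχ, rfl⟩ := Finset.mem_image.1 ha
    obtain ⟨χ', hχ', rfl⟩ := Finset.mem_image.1 hb
    exact hsep χ hχ χ' hχ' fun h => hab (by rw [h])

/-- **BLOCK RCH, first part.** -/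
theorem four28 (H : HypL E ℓ x f r) (hℓ : ℓ.Prime) (hℓ2 : ℓ ≠ 2)
    (hbr : ∃ u : K0, IsRatBr ℓ x f u) (h3 : 3 ≤ numBr k E ℓ f) (h4 : ℓ = 3 → 4 ≤ numBr k E ℓ f) :
    Four E K0 r (YL E K0 ℓ (U := U)) := by
  classical
  have hnum : ∀ c : ℕ, numBr k E ℓ f ≤ c + 1 → 4 * ℓ ≤ ℓ ^ c := by
    intro c hc
    have hℓ3 : 3 ≤ ℓ := by
      have := hℓ.two_le
      omega
    by_cases h : ℓ = 3
    · have h5 : 3 ≤ c := by have := h4 h; omega
      calc 4 * ℓ ≤ 3 ^ 3 := by rw [h]; norm_num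
        _ ≤ ℓ ^ 3 := Nat.pow_le_pow_left hℓ3 3
        _ ≤ ℓ ^ c := Nat.pow_le_pow_right hℓ.pos h5
    · have h5 : 2 ≤ c := by omega
      calc 4 * ℓ ≤ ℓ * ℓ := Nat.mul_le_mul_right ℓ (by omega)
        _ = ℓ ^ 2 := by ring
        _ ≤ ℓ ^ c := Nat.pow_le_pow_right hℓ.pos h5
  have hbr' : ¬ ℓ ∣ f.natDegree ∨ ∃ α : k, ¬ ℓ ∣ f.rootMultiplicity α := by
    obtain ⟨u, ⟨-, h⟩ | ⟨α, h, -⟩⟩ := hbr
    · exact Or.inl h
    · exact Or.inr ⟨α, h⟩
  by_cases hd : ℓ ∣ f.natDegree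
  · obtain ⟨α, hα⟩ := hbr'.resolve_left (not_not.2 hd)
    obtain ⟨F, s, hs, hF, HF, -, hmult⟩ := H.coord' hℓ hα
    refine Four.mul28 hs (four_inf28 HF hℓ hF (hnum _ ?_))
    rw [numBr_eq, if_pos hd, add_zero]
    have h5 : ((RB k E ℓ f).erase (algebraMap k E α)).card ≤ (RB k E ℓ F).card := by
      refine Finset.card_le_card_of_injOn (fun β => (β - algebraMap k E α)⁻¹) ?_ ?_
      · intro β hβ
        rw [Finset.coe_erase, Set.mem_diff, Set.mem_singleton_iff, Finset.mem_coe, mem_RB] at hβ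
        have h6 : β - algebraMap k E α ≠ 0 := sub_ne_zero.2 hβ.2
        show (β - algebraMap k E α)⁻¹ ∈ RB k E ℓ F
        rw [mem_RB, hmult _ (inv_ne_zero h6), inv_inv, add_sub_cancel]
        exact hβ.1
      · intro β _ γ _ h
        have h6 : β - algebraMap k E α = γ - algebraMap k E α := inv_injective h
        exact sub_left_injective h6
    have h6 := Finset.pred_card_le_card_erase (s := RB k E ℓ f) (a := algebraMap k E α)
    omega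
  · refine four_inf28 H hℓ hd (hnum _ ?_)
    rw [numBr_eq, if_neg hd]

end geo

end Pool.Agent.PRL
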