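import Pool.Agent.Helper28.PL.Four
import Pool.Agent.Helper45.PL.RCH

/-!
# Project PL, block RCH
-/

set_option autoImplicit false

namespace Pool.Agent.PRL

/-- **BLOCK RCH.** -/
theorem rCH : StmtRCH := by
  intro k K0 E U _ _ _ _ _ _ _ _ _ _ _ _ ℓ x f r hℓ hℓ2 hμ H hbr h3 h4
  refine ⟨four28 H hℓ hℓ2 hbr h3 h4, fun u hu N hN Q hQ => rch2 hℓ H hu hN hQ, ?_⟩
  intro c Φ _ A b hb hΦ
  obtain ⟨u, hu, h⟩ := rch3 hℓ H A hb hΦ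
  exact ⟨u, hu, fun N _ Q hQ => h N Q hQ⟩

end Pool.Agent.PRL
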